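import Mathlib
import Pool.Agent.U623.HK.TwoMain

/-!
# MP_528be1_nt: coloured words which differ only in the middle

Let `U` be a finite set of words `u = ((a_1, z_1), ..., (a_k, z_k))`, `a_j ≥ 1`, `|z_j| = 1` (for example roots of unity),
with the same product `z_1 ... z_k = σ`. For an admissible uncoloured word `p` (the largest variables) and an uncoloured
word `t` (the smallest variables) the values `Li(p u t)`, `u ∈ U`, satisfy no linear relation with given complex
coefficients if `t` is long and the weight minus the depth of `p` is at least `(length t) ^ E`. If the `z_j` lie in a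
subring of `ℂ` whose nonzero elements have absolute value at least one (the integers, the Gaussian integers, the ring of the
sixth roots of unity), there is no relation with coefficients in this ring of absolute value at most `κ · length t`.

Proof. The values are sums of the truncated sums of `u t` at `n` with weights which decrease by the factor
`(n + 1) / (n + 2 + wt p - dep p)`. The combination of the truncated sums is zero below `length t + j` and equal to
`σ ^ k H_t(k) Q(k)`, `k = length t`, at `k + j`, where `Q` is a rational function, not zero because the coloured harmonic sums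
are linearly independent; this value dominates.
-/

set_option autoImplicit false

namespace Pool.Agent.Results.MP_528be1_nt.CommonFirstAndLastPartsColoured

open Filter Topology

/-- the multiple zeta value of the list `l`, the first entry belongs to the largest summation variable -/
noncomputable def mzv (l : List ℕ) : ℝ :=
  ∑' m : {m : Fin l.length → ℕ // StrictAnti m ∧ ∀ i, 0 < m i}, ∏ i, ((m.1 i : ℝ) ^ (l.get i))⁻¹

/-- the truncated sum of a coloured word `w = [(a_1, z_1), ..., (a_k, z_k)]`: the sum of `∏ z_i ^ (n_i) / n_i ^ (a_i)` over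
`N ≥ n_1 > ... > n_k ≥ 1`, written as an iterated sum -/
noncomputable def tr : List (ℕ × ℂ) → ℕ → ℂ
  | [], _ => 1
  | (l :: w), N => ∑ n ∈ Finset.range N, l.2 ^ (n + 1) * (((n + 1 : ℕ) : ℂ) ^ l.1)⁻¹ * tr w n

/-- the value of a coloured word, the limit of the truncated sums -/
noncomputable def Li (w : List (ℕ × ℂ)) : ℂ := limUnder atTop (tr w)

/-- uncoloured letters -/
def unc (p : List ℕ) : List (ℕ × ℂ) := p.map fun a => (a, (1 : ℂ))

/-- `p` is an admissible word (positive letters, the first at least two), `t` a word in positive integers, and the weight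
minus the depth of `p` is at least `(length t) ^ E` -/
def Parts (E : ℕ) (p t : List ℕ) : Prop :=
  (∀ x ∈ p, 1 ≤ x) ∧ (∀ a q, p = a :: q → 2 ≤ a) ∧ (∀ x ∈ t, 1 ≤ x) ∧ t.length ^ E + p.length ≤ p.sum

/-- coloured words: positive exponents, colours of absolute value one with product `σ` -/
def Middle (σ : ℂ) (u : List (ℕ × ℂ)) : Prop := (∀ l ∈ u, 1 ≤ l.1 ∧ ‖l.2‖ = 1) ∧ (u.map Prod.snd).prod = σ

lemma mzv_eq {l : List ℕ} (hl : Pool.Agent.H447R2.MZ.Adm l) : mzv l = Pool.Agent.H447R2.MZ.val l := by
  have h1 := Pool.Agent.H447R2.MZ.hasSum_val l.length l.get (by rw [List.ofFn_get]; exact hl)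
  rw [List.ofFn_get] at h1
  exact h1.tsum_eq

lemma tr_eq (w : List (ℕ × ℂ)) : tr w = Pool.Agent.U623.HK.Hc w := by
  induction w with
  | nil => funext N; rw [tr, Pool.Agent.U623.HK.Hc_nil]
  | cons l w ih => funext N; rw [tr, Pool.Agent.U623.HK.Hc_cons, ih]

lemma Li_eq (w : List (ℕ × ℂ)) : Li w = Pool.Agent.U623.HK.mli w := by
  rw [Li, tr_eq, Pool.Agent.U623.HK.mli]

lemma p_ne {E : ℕ} {p t : List ℕ} (h : Parts E p t) (ht : t ≠ []) : p ≠ [] := by
  rintro rfl
  have h1 := h.2.2.2
  rw [List.length_nil, List.sum_nil, add_zero] at h1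
  have h2 : 0 < t.length ^ E := by
    have : 0 < t.length := List.length_pos_iff.2 ht
    positivity
  omega

lemma two_pos (J : ℕ) : ∀ x ∈ List.replicate J 2, 1 ≤ x := by
  intro x hx
  rw [(List.mem_replicate.1 hx).2]
  norm_num

/-- **Theorem.** Let `U` be a finite set of words with positive exponents and colours of absolute value one, all with the same
product `σ` of the colours. Then there are `J`, `E` with the following properties. (0) For nonempty `t` and all `p` with
`Parts E p t` the truncated sums of `p u t`, `u ∈ U`, converge. (1) For all complex numbers `c_u`, `u ∈ U`, not all zero, there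
is `n0` such that `|∑ c_u Li(p u t)| ≥ ζ(p, 2, ..., 2, t) / (length t) ^ E > 0`, with `J` letters `2`, for all words `t` of
length at least `n0` and all admissible words `p` whose weight minus depth is at least `(length t) ^ E`. (2) If all colours
lie in a subring `O` of `ℂ` whose nonzero elements have absolute value at least one, there is `κ > 0` such that the same
holds for all such `p`, `t` (`t` of any length) and all `c_u ∈ O`, not all zero, of absolute value at most `κ · length t`. -/
theorem result (σ : ℂ) (U : Finset (List (ℕ × ℂ))) (hU : ∀ u ∈ U, Middle σ u) : ∃ J E : ℕ,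
    (∀ p t : List ℕ, Parts E p t → t ≠ [] → ∀ u ∈ U,
      Tendsto (tr (unc p ++ u ++ unc t)) atTop (𝓝 (Li (unc p ++ u ++ unc t)))) ∧
    (∀ c : List (ℕ × ℂ) → ℂ, (∃ u ∈ U, c u ≠ 0) → ∃ n0 : ℕ, ∀ p t : List ℕ, Parts E p t → n0 ≤ t.length →
      0 < mzv (p ++ List.replicate J 2 ++ t) ∧
      mzv (p ++ List.replicate J 2 ++ t) / (t.length : ℝ) ^ E ≤ ‖∑ u ∈ U, c u * Li (unc p ++ u ++ unc t)‖) ∧
    (∀ O : Subring ℂ, (∀ x ∈ O, x ≠ 0 → 1 ≤ ‖x‖) → (∀ u ∈ U, ∀ l ∈ u, l.2 ∈ O) → ∃ κ : ℝ, 0 < κ ∧
      ∀ p t : List ℕ, Parts E p t → ∀ c : List (ℕ × ℂ) → ℂ, (∀ u ∈ U, c u ∈ O) → (∃ u ∈ U, c u ≠ 0) →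
      (∀ u ∈ U, ‖c u‖ ≤ κ * t.length) →
      0 < mzv (p ++ List.replicate J 2 ++ t) ∧
      mzv (p ++ List.replicate J 2 ++ t) / (t.length : ℝ) ^ E ≤ ‖∑ u ∈ U, c u * Li (unc p ++ u ++ unc t)‖) := by
  have hcol : ∀ u ∈ U, Pool.Agent.U623.HK.Col u := by
    intro u hu l hl
    obtain ⟨h1, h2⟩ := (hU u hu).1 l hl
    refine ⟨h1, ?_, h2.le⟩
    intro h3
    rw [h3, norm_zero] at h2
    exact zero_ne_one h2
  obtain ⟨J, E, h1, h2⟩ := Pool.Agent.U623.HK.main2 U hcol (fun u hu l hl => ((hU u hu).1 l hl).2) σ
    (fun u hu => (hU u hu).2)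
  have e1 : ∀ p t : List ℕ, Parts E p t → t ≠ [] → mzv (p ++ List.replicate J 2 ++ t) =
      Pool.Agent.H447R2.MZ.val (p ++ (List.replicate J 2 ++ t)) := by
    intro p t hpt ht
    rw [List.append_assoc, mzv_eq (Pool.Agent.U623.HC.adm_parts hpt (p_ne hpt ht) _ (two_pos J))]
  have e2 : ∀ (p t : List ℕ) (u : List (ℕ × ℂ)), Li (unc p ++ u ++ unc t) =
      Pool.Agent.U623.HK.mli (Pool.Agent.U623.HK.lift p ++ (u ++ Pool.Agent.U623.HK.lift t)) := by
    intro p t u
    rw [Li_eq, List.append_assoc]
    rfl
  refine ⟨J, E, ?_, ?_, ?_⟩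
  · intro p t hpt ht u hu
    have h3 := Pool.Agent.U623.HK.conv2 (E := E) hpt (p_ne hpt ht) (hcol u hu)
    rw [e2, tr_eq, List.append_assoc]
    exact h3
  · intro c hc
    obtain ⟨n0, h3⟩ := h1 c hc
    refine ⟨n0 + 1, fun p t hpt hn => ?_⟩
    have ht : t ≠ [] := by
      rintro rfl
      simp at hn
    have h4 := h3 p t hpt (by omega)
    rw [e1 p t hpt ht]
    simp only [e2]
    exact h4
  · intro O hO hUO
    obtain ⟨κ, hκ, h3⟩ := h2 O hO hUO
    refine ⟨κ, hκ, fun p t hpt c hcO hc hcb => ?_⟩
    have ht : t ≠ [] := by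
      rintro rfl
      obtain ⟨u, hu, hcu⟩ := hc
      have h4 := hcb u hu
      rw [List.length_nil, Nat.cast_zero, mul_zero] at h4
      exact hcu (norm_le_zero_iff.1 h4)
    have h4 := h3 p t hpt c hcO hc hcb
    rw [e1 p t hpt ht]
    simp only [e2]
    exact h4

end Pool.Agent.Results.MP_528be1_nt.CommonFirstAndLastPartsColoured
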