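import Mathlib
import Pool.Agent.U623.HK.Fin

/-!
# MP_528be1_nt: coloured words with a common uncoloured first part

Let `U` be a finite set of coloured words `u = ((a_1, z_1), ..., (a_k, z_k))`, `a_j ≥ 1`, `0 < |z_j| ≤ 1`, for example
with roots of unity `z_j` of any order. For an admissible word `p` in positive integers (the largest variables) the values
`Li(p u)`, `u ∈ U`, satisfy no linear relation with given complex coefficients if the weight minus the depth of `p` is
large. If all `z_j` lie in a subring of `ℂ` whose nonzero elements have absolute value at least one (the integers, the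
Gaussian integers, the ring of the sixth roots of unity), there is no relation with coefficients in this ring of absolute
value at most `κ (wt p - dep p)`.

Proof. `Li(p u)` is the sum of the truncated coloured harmonic sums of `u` at `n` with weights `w(n)` which depend on `p`,
and `(n + 2 + wt p - dep p) w(n+1) ≤ (n + 1) w(n)` for all admissible `p`. So the first nonzero value of the combination of
the harmonic sums dominates. The coloured harmonic sums are linearly independent, even over the rational functions and with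
exponential factors: the difference operator lowers the depth, and a rational function does not telescope to a sum of
negative powers of `n`.
-/

set_option autoImplicit false

namespace Pool.Agent.Results.MP_528be1_nt.CommonFirstPartColoured

open Filter Topology

/-- the multiple zeta value of the list `l`, the first entry belongs to the largest summation variable -/
noncomputable def mzv (l : List ℕ) : ℝ :=
  ∑' m : {m : Fin l.length → ℕ // StrictAnti m ∧ ∀ i, 0 < m i}, ∏ i, ((m.1 i : ℝ) ^ (l.get i))⁻¹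

/-- the truncated sum of a coloured word `w = [(a_1, z_1), ..., (a_k, z_k)]`: the sum of `∏ z_i ^ (n_i) / n_i ^ (a_i)` over
`N ≥ n_1 > ... > n_k ≥ 1`, written as an iterated sum -/
noncomputable def tr : List (ℕ × ℂ) → ℕ → ℂ
  | [], _ => 1
  | (l :: w), N => ∑ n ∈ Finset.range N, l.2 ^ (n + 1) * (((n + 1 : ℕ) : ℂ) ^ l.1)⁻¹ * tr w n

/-- the value of a coloured word, the limit of the truncated sums -/
noncomputable def Li (w : List (ℕ × ℂ)) : ℂ := limUnder atTop (tr w)

/-- uncoloured letters -/
def unc (p : List ℕ) : List (ℕ × ℂ) := p.map fun a => (a, (1 : ℂ))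

/-- `p` is a nonempty admissible word in positive integers -/
def First (p : List ℕ) : Prop := p ≠ [] ∧ (∀ x ∈ p, 1 ≤ x) ∧ (∀ a q, p = a :: q → 2 ≤ a)

/-- coloured words: positive exponents, `0 < |z| ≤ 1` -/
def Coloured (w : List (ℕ × ℂ)) : Prop := ∀ l ∈ w, 1 ≤ l.1 ∧ l.2 ≠ 0 ∧ ‖l.2‖ ≤ 1

lemma mzv_eq {l : List ℕ} (hl : Pool.Agent.H447R2.MZ.Adm l) : mzv l = Pool.Agent.H447R2.MZ.val l := by
  have h1 := Pool.Agent.H447R2.MZ.hasSum_val l.length l.get (by rw [List.ofFn_get]; exact hl)
  rw [List.ofFn_get] at h1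
  exact h1.tsum_eq

lemma tr_eq (w : List (ℕ × ℂ)) : tr w = Pool.Agent.U623.HK.Hc w := by
  induction w with
  | nil => funext N; rw [tr, Pool.Agent.U623.HK.Hc_nil]
  | cons l w ih => funext N; rw [tr, Pool.Agent.U623.HK.Hc_cons, ih]

lemma Li_eq (w : List (ℕ × ℂ)) : Li w = Pool.Agent.U623.HK.mli w := by
  rw [Li, tr_eq, Pool.Agent.U623.HK.mli]

/-- **Theorem.** Let `U` be a finite set of coloured words. The truncated sums of `p u`, `u ∈ U`, `p` nonempty and admissible,
converge. There is `M` with the following two properties. (1) For all complex numbers `c_u`, `u ∈ U`, not all zero, there are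
`κ > 0` and `r0` such that `|∑ c_u Li(p u)| ≥ κ ζ(p, 2, ..., 2) > 0`, with `M` letters `2`, for all nonempty admissible
words `p` with `wt p - dep p ≥ r0`. (2) If the colours of the words of `U` lie in a subring `O` of `ℂ` whose nonzero elements
have absolute value at least one, there is `κ > 0` such that the same inequality holds for all nonempty admissible words `p`
and all `c_u ∈ O`, not all zero, of absolute value at most `κ (wt p - dep p)`. -/
theorem result (U : Finset (List (ℕ × ℂ))) (hU : ∀ u ∈ U, Coloured u) :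
    (∀ p : List ℕ, First p → ∀ u ∈ U, Tendsto (tr (unc p ++ u)) atTop (𝓝 (Li (unc p ++ u)))) ∧
    ∃ M : ℕ,
    (∀ c : List (ℕ × ℂ) → ℂ, (∃ u ∈ U, c u ≠ 0) → ∃ κ : ℝ, 0 < κ ∧ ∃ r0 : ℕ, ∀ p : List ℕ, First p →
      r0 + p.length ≤ p.sum → 0 < mzv (p ++ List.replicate M 2) ∧
      κ * mzv (p ++ List.replicate M 2) ≤ ‖∑ u ∈ U, c u * Li (unc p ++ u)‖) ∧
    (∀ O : Subring ℂ, (∀ x ∈ O, x ≠ 0 → 1 ≤ ‖x‖) → (∀ u ∈ U, ∀ l ∈ u, l.2 ∈ O) → ∃ κ : ℝ, 0 < κ ∧
      ∀ p : List ℕ, First p → ∀ c : List (ℕ × ℂ) → ℂ, (∀ u ∈ U, c u ∈ O) → (∃ u ∈ U, c u ≠ 0) →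
      (∀ u ∈ U, ‖c u‖ ≤ κ * ((p.sum : ℝ) - p.length)) → 0 < mzv (p ++ List.replicate M 2) ∧
      κ * mzv (p ++ List.replicate M 2) ≤ ‖∑ u ∈ U, c u * Li (unc p ++ u)‖) := by
  constructor
  · intro p hp u hu
    have h1 := Pool.Agent.U623.HK.conv (p := p) hp (hU u hu)
    rw [tr_eq, Li_eq]
    exact h1
  obtain ⟨M, h1, h2⟩ := Pool.Agent.U623.HK.mainC U hU
  have hval : ∀ p : List ℕ, First p → mzv (p ++ List.replicate M 2) =
      Pool.Agent.H447R2.MZ.val (p ++ List.replicate M 2) := by
    intro p hp
    refine mzv_eq (Pool.Agent.U623.HK.adm_first hp _ fun x hx => ?_)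
    rw [(List.mem_replicate.1 hx).2]
    norm_num
  refine ⟨M, ?_, ?_⟩
  · intro c hc
    obtain ⟨κ, hκ, r0, h3⟩ := h1 c hc
    refine ⟨κ, hκ, r0, fun p hp hr => ?_⟩
    have h4 := h3 p hp hr
    rw [hval p hp]
    simp only [Li_eq]
    exact h4
  · intro O hO hUO
    obtain ⟨κ, hκ, h3⟩ := h2 O hO hUO
    refine ⟨κ, hκ, fun p hp c hcO hc hcb => ?_⟩
    have h4 := h3 p hp c hcO hc hcb
    rw [hval p hp]
    simp only [Li_eq]
    exact h4

end Pool.Agent.Results.MP_528be1_nt.CommonFirstPartColoured
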