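import Mathlib
import Pool.Agent.U623.HS.Span

/-!
# MP_528be1_nt: alternating multiple zeta values with a common last part

Let `U` be a finite set of signed words `(a_1, z_1) … (a_n, z_n)`, `z_j = ±1`, with absolutely convergent values,
and let `s` be a last part (smallest variables) whose letters have nonnegative weights `b_j(ℓ_j) ∈ [0, 1]`
instead of signs. Either the products of the signs of all `u ∈ U` are `1`, or the weight of the largest variable
of `s` is supported on the even or on the odd numbers. Then the numbers `Li(u s)`, `u ∈ U`, satisfy no linear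
relation with integer coefficients, not all zero, of absolute value at most `κ · length s`, `κ = κ(U) > 0`, and
for real coefficients a relation is possible only for words `s` of bounded length. For weights of period `2`
(all numbers, even numbers, odd numbers) these numbers are in the space `Z_w(2)` of Q1. For
weights `1` they are `Li_{u, s}(z_u, 1, …, 1)`, and for indicators of the odd numbers the last part is the one
of a multiple `t`-value.

The proof. The sums over the variables `> m` of a signed word are `(± 1) ^ m` times a function with an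
asymptotic expansion in `1 / m` with rational coefficients, where the sign is the product of all
signs. These functions are linearly independent over the rational functions of `m`, modulo functions which
decrease faster than all powers of `m`, for all signed words together (difference algebra for the equations
`z f (m - 1) - f m = g m`, `z = ±1`). Then the first nonzero coefficient of a combination decides.
-/

set_option autoImplicit false

open Filter Topology

namespace Pool.Agent.Results.MP_528be1_nt.CommonLastPartAlternating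

/-- A letter `(a, b)` consists of an exponent `a` and a weight `b : ℕ → ℝ`. `trunc l N` is the sum of
`∏ b_j(ℓ_j) ℓ_j ^ (-a_j)` over `N ≥ ℓ_1 > … > ℓ_n ≥ 1`, where `l` is the list of the letters `(a_j, b_j)`. -/
noncomputable def trunc : List (ℕ × (ℕ → ℝ)) → ℕ → ℝ
  | [], _ => 1
  | x :: s, N => ∑ n ∈ Finset.range N, x.2 (n + 1) * (((n + 1 : ℕ) : ℝ) ^ x.1)⁻¹ * trunc s n

/-- the sum of `∏ b_j(ℓ_j) ℓ_j ^ (-a_j)` over `ℓ_1 > … > ℓ_n ≥ 1` -/
noncomputable def msum : List (ℕ × (ℕ → ℝ)) → ℝ
  | [] => 1
  | x :: s => ∑' n : ℕ, x.2 (n + 1) * (((n + 1 : ℕ) : ℝ) ^ x.1)⁻¹ * trunc s n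

/-- the letter `(a, z)` with `z = ±1` has the weight `z ^ ℓ` -/
noncomputable def signed (x : ℕ × ℤˣ) : ℕ × (ℕ → ℝ) := (x.1, fun n => ((x.2 : ℤ) : ℝ) ^ n)

/-- the space `Z_w(2)` of the problem: the rational span of the alternating multiple zeta values of weight `w` -/
noncomputable def Z (w : ℕ) : Submodule ℚ ℝ :=
  Submodule.span ℚ {x | ∃ l : List (ℕ × ℤˣ), l ≠ [] ∧ (∀ y ∈ l, 1 ≤ y.1) ∧ l.head? ≠ some (1, 1) ∧
    (l.map Prod.fst).sum = w ∧ Tendsto (trunc (l.map signed)) atTop (𝓝 x)}

/-- signed words with absolutely convergent values: the exponents are positive and the first one (if there is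
one) is at least two -/
def Admissible (u : List (ℕ × ℤˣ)) : Prop := (∀ x ∈ u, 1 ≤ x.1) ∧ ∀ x ∈ u.head?, 2 ≤ x.1

/-- `y s` is allowed as common last part for the words in `U`: the exponents are positive (the one of `y` at
least two if the empty word is in `U`); the weights have values in `[0, 1]` and infinitely many values
are not `0`; the products of the signs of all `u ∈ U` are `1` or the weight of `y` is supported
in one class modulo `2` -/
def LastPart (U : Finset (List (ℕ × ℤˣ))) (y : ℕ × (ℕ → ℝ)) (s : List (ℕ × (ℕ → ℝ))) : Prop :=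
  (∀ x ∈ y :: s, 1 ≤ x.1) ∧ ([] ∈ U → 2 ≤ y.1) ∧
  (∀ x ∈ y :: s, (∀ n, 0 ≤ x.2 n ∧ x.2 n ≤ 1) ∧ ∀ M, ∃ n, M ≤ n ∧ 0 < x.2 n) ∧
  ((∀ u ∈ U, (u.map Prod.snd).prod = 1) ∨ ∃ p : ℕ, ∀ n, y.2 n ≠ 0 → n % 2 = p % 2)

/-- rational weights of period `2` -/
def PeriodTwo (b : ℕ → ℝ) : Prop := ∃ α β : ℚ, ∀ n, b n = α + β * (-1) ^ n

lemma trunc_eq : ∀ (l : List (ℕ × (ℕ → ℝ))) (N : ℕ), trunc l N = Pool.Agent.U623.HS.tr l N := by
  intro l
  induction l with
  | nil => intro N; rw [trunc, Pool.Agent.U623.HS.tr]
  | cons x s ih =>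
    intro N
    rw [trunc, Pool.Agent.U623.HS.tr]
    exact Finset.sum_congr rfl fun n _ => by rw [ih]

lemma msum_eq (l : List (ℕ × (ℕ → ℝ))) : msum l = Pool.Agent.U623.HS.Sm l := by
  cases l with
  | nil => rw [msum, Pool.Agent.U623.HS.Sm]
  | cons x s =>
    rw [msum, Pool.Agent.U623.HS.Sm]
    exact tsum_congr fun n => by rw [trunc_eq]

lemma signed_eq : signed = Pool.Agent.U623.HS.cv := rfl

lemma adm {u : List (ℕ × ℤˣ)} (h : Admissible u) :
    Pool.Agent.H447R2.MZ.Adm (Pool.Agent.U623.HS.ex u) := by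
  refine ⟨fun a ha => ?_, fun a t hat => ?_⟩
  · rw [Pool.Agent.U623.HS.ex, List.mem_map] at ha
    obtain ⟨x, hx, rfl⟩ := ha
    exact h.1 x hx
  · cases u with
    | nil => simp [Pool.Agent.U623.HS.ex] at hat
    | cons x u =>
      rw [Pool.Agent.U623.HS.ex, List.map_cons, List.cons.injEq] at hat
      rw [← hat.1]
      exact h.2 x rfl

/-- **Theorem.** Let `U` be a finite set of admissible signed words.
(1) There are `κ > 0` and `J ≥ 1` such that for all allowed last parts `y s`, `y = (a, b)`, and all integers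
`c_u`, `u ∈ U`, not all zero, with `|c_u| ≤ κ · length (y s)`:
`|∑ c_u Li(u y s)| ≥ κ Li((a + J, b) s) > 0`.
(2) For real numbers `c_u`, not all zero, `∑ c_u Li(u y s) ≠ 0` for all allowed last parts of length at
least `n0(c)`.
(3) If the weights of `y s` are rational and have period `2`, the numbers `Li(u y s)` are in `Z_w(2)` for
`w = wt u + wt (y s)`. -/
theorem result (U : Finset (List (ℕ × ℤˣ))) (hU : ∀ u ∈ U, Admissible u) :
    (∃ κ : ℝ, 0 < κ ∧ ∃ J : ℕ, 1 ≤ J ∧ ∀ y s, LastPart U y s →
      ∀ c : List (ℕ × ℤˣ) → ℤ, (∃ u ∈ U, c u ≠ 0) → (∀ u ∈ U, |(c u : ℝ)| ≤ κ * (y :: s).length) →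
        0 < msum ((y.1 + J, y.2) :: s) ∧
        κ * msum ((y.1 + J, y.2) :: s) ≤ |∑ u ∈ U, (c u : ℝ) * msum (u.map signed ++ y :: s)|) ∧
    (∀ c : List (ℕ × ℤˣ) → ℝ, (∃ u ∈ U, c u ≠ 0) → ∃ n0 : ℕ, ∀ y s, LastPart U y s →
      n0 ≤ (y :: s).length → ∑ u ∈ U, c u * msum (u.map signed ++ y :: s) ≠ 0) ∧
    (∀ u ∈ U, ∀ y s, LastPart U y s → (∀ x ∈ y :: s, PeriodTwo x.2) →
      msum (u.map signed ++ y :: s) ∈
        Z ((u.map Prod.fst).sum + ((y :: s).map Prod.fst).sum)) := by
  refine ⟨?_, fun c hc => ?_, fun u hu y s h hp => ?_⟩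
  · obtain ⟨κ, hκ, J, hJ, h⟩ := Pool.Agent.U623.HS.mainInt U fun u hu => adm (hU u hu)
    refine ⟨κ, hκ, J, hJ, fun y s hl c hc hle => ?_⟩
    simp only [msum_eq, signed_eq]
    refine h y s (fun x hx n => ((hl.2.2.1 x hx).1 n).1) (fun x hx n => ((hl.2.2.1 x hx).1 n).2)
      (fun x hx => (hl.2.2.1 x hx).2) hl.1 hl.2.1 hl.2.2.2 c hc fun u hu => ?_
    have := hle u hu
    rw [List.length_cons] at this
    push_cast at this
    exact this
  · obtain ⟨n0, h⟩ := Pool.Agent.U623.HS.mainReal U (fun u hu => adm (hU u hu)) c hc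
    refine ⟨n0, fun y s hl hn => ?_⟩
    simp only [msum_eq, signed_eq]
    exact h y s (fun x hx n => ((hl.2.2.1 x hx).1 n).1) (fun x hx n => ((hl.2.2.1 x hx).1 n).2)
      (fun x hx => (hl.2.2.1 x hx).2) hl.1 hl.2.1 hl.2.2.2 (by simpa using hn)
  · rw [msum_eq, signed_eq]
    obtain ⟨l, hl⟩ : ∃ l, l = u.map Pool.Agent.U623.HS.cv ++ y :: s := ⟨_, rfl⟩
    have hexw : Pool.Agent.U623.HS.exw l = u.map Prod.fst ++ (y :: s).map Prod.fst := by
      rw [hl, Pool.Agent.U623.HS.exw, List.map_append, List.map_map]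
      rfl
    have hadm : Pool.Agent.H447R2.MZ.Adm (Pool.Agent.U623.HS.exw l) := by
      rw [hexw]
      refine ⟨fun a ha => ?_, fun a t hat => ?_⟩
      · rw [List.mem_append, List.mem_map, List.mem_map] at ha
        rcases ha with ⟨x, hx, rfl⟩ | ⟨x, hx, rfl⟩
        · exact (hU u hu).1 x hx
        · exact h.1 x hx
      · cases u with
        | nil =>
          rw [List.map_nil, List.nil_append, List.map_cons, List.cons.injEq] at hat
          rw [← hat.1]
          exact h.2.1 hu
        | cons x u =>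
          rw [List.map_cons, List.cons_append, List.cons.injEq] at hat
          rw [← hat.1]
          exact (hU _ hu).2 x rfl
    have hb : ∀ x ∈ l, ∀ n, |x.2 n| ≤ 1 := by
      intro x hx n
      rw [hl, List.mem_append, List.mem_map] at hx
      rcases hx with ⟨v, -, rfl⟩ | hx
      · exact Pool.Agent.U623.HS.cv_abs v n
      · rw [abs_of_nonneg ((h.2.2.1 x hx).1 n).1]
        exact ((h.2.2.1 x hx).1 n).2
    have hper : ∀ x ∈ l, ∃ α β : ℚ, ∀ n, x.2 n = α + β * (-1) ^ n := by
      intro x hx
      rw [hl, List.mem_append, List.mem_map] at hx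
      rcases hx with ⟨v, -, rfl⟩ | hx
      · rcases Int.units_eq_one_or v.2 with h1 | h1
        · exact ⟨1, 0, fun n => by simp [Pool.Agent.U623.HS.cv, Pool.Agent.U623.HS.sg, h1]⟩
        · exact ⟨0, 1, fun n => by simp [Pool.Agent.U623.HS.cv, Pool.Agent.U623.HS.sg, h1]⟩
      · exact hp x hx
    have h2 := Pool.Agent.U623.HS.Sm_mem l hb hadm hper
    rw [hl] at h2
    refine Submodule.span_mono ?_ h2
    rintro x ⟨v, hv, hx⟩
    rw [← hl] at hv
    have hsum : (v.map Prod.fst).sum = (u.map Prod.fst).sum + ((y :: s).map Prod.fst).sum := by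
      have h3 : v.map Prod.fst = Pool.Agent.U623.HS.exw l := hv
      rw [h3, hexw, List.sum_append]
    refine ⟨v, ?_, ?_, ?_, hsum, ?_⟩
    · intro h0
      rw [h0] at hv
      have h4 := congrArg List.length hv
      rw [hexw] at h4
      simp [Pool.Agent.U623.HS.ex] at h4
    · intro z hz
      have h3 : z.1 ∈ Pool.Agent.U623.HS.ex v := List.mem_map_of_mem hz
      rw [hv] at h3
      exact hadm.1 _ h3
    · cases v with
      | nil => simp
      | cons z v =>
        intro h3
        rw [List.head?_cons, Option.some.injEq] at h3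
        have h5 := hadm.2 z.1 (Pool.Agent.U623.HS.ex v) hv.symm
        rw [h3] at h5
        simp at h5
    · have h3 : trunc (v.map signed) = Pool.Agent.U623.HS.tr (v.map Pool.Agent.U623.HS.cv) := by
        funext N
        rw [trunc_eq, signed_eq]
      rw [h3]
      exact hx

end Pool.Agent.Results.MP_528be1_nt.CommonLastPartAlternating
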