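import Mathlib
import Pool.Agent.U823.MV.Cyc

/-!
# MP_528be1_nt: lower bounds for the dimensions of the spaces of cyclotomic multiple zeta values

The space `Z N w` of cyclotomic multiple zeta values of level `N ≥ 3` and weight `w` has dimension
at least `s + (w - 1) ⌊s ^ 2 / 4⌋`, where `s = φ(N) / 2 + ω(N)`, also over the algebraic numbers,
and over the rational numbers at least `2 (s - 1) + (2 w - 3) ⌊(s - 1) ^ 2 / 4⌋`; the space of
alternating multiple zeta values has dimension at least `⌊w / 2⌋ + 1`.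

The proof combines the stuffle product with one letter, the theorem of Roy on products of a space of
logarithms of algebraic numbers with an arbitrary space (library files `Pool.Agent.W254`,
`Pool.Agent.W256`), the theorem of Baker (`Pool.Agent.H297R2`), the decomposition into real and
imaginary parts, and the dimension of `Z N 1`, which comes from `L(1, χ) ≠ 0` for the even
characters (`Pool.Agent.Y41.XT.L1`) and from the logarithms of the prime divisors of `N`.
-/

set_option autoImplicit false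

namespace Pool.Agent.Results.MP_528be1_nt.LinearGrowth

open Filter Topology Module

/-- `trunc [(a_1, z_1), ..., (a_n, z_n)] m` is the sum of `∏ z_j ^ l_j / l_j ^ a_j` over
`m > l_1 > ... > l_n ≥ 1` -/
noncomputable def trunc : List (ℕ × ℂ) → ℕ → ℂ
  | [], _ => 1
  | x :: l, m => ∑ j ∈ Finset.Ico 1 m, x.2 ^ j / (j : ℂ) ^ x.1 * trunc l j

/-- the indices of level `N` and weight `w`: nonempty lists of pairs `(a_j, z_j)` with `a_j ≥ 1`,
`z_j ^ N = 1`, `∑ a_j = w` and `(a_1, z_1) ≠ (1, 1)` -/
def Index (N w : ℕ) (l : List (ℕ × ℂ)) : Prop :=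
  l ≠ [] ∧ (∀ x ∈ l, 1 ≤ x.1 ∧ x.2 ^ N = 1) ∧ (l.map Prod.fst).sum = w ∧
    ∀ x ∈ l.head?, x ≠ (1, 1)

/-- the rational vector space spanned by the values `Li_{a_1, ..., a_n}(z_1, ..., z_n)`, that is the
limits of `trunc l m` for `m → ∞`, for the indices `l` of level `N` and weight `w` -/
noncomputable def Z (N w : ℕ) : Submodule ℚ ℂ :=
  Submodule.span ℚ {v | ∃ l, Index N w l ∧ Tendsto (trunc l) atTop (𝓝 v)}

/-- the span of `Z N w` over the field of algebraic numbers -/
noncomputable def algZ (N w : ℕ) : Submodule (algebraicClosure ℚ ℂ) ℂ :=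
  Submodule.span (algebraicClosure ℚ ℂ) (Z N w : Set ℂ)

/-- **Main result.** -/
theorem result (N w : ℕ) (hN : 1 ≤ N) (hw : 1 ≤ w) :
    (∀ l, Index N w l → ∃ v, Tendsto (trunc l) atTop (𝓝 v)) ∧
    FiniteDimensional ℚ (Z N w) ∧
    finrank (algebraicClosure ℚ ℂ) (algZ N w) ≤ finrank ℚ (Z N w) ∧
    (N = 2 → w / 2 + 1 ≤ finrank (algebraicClosure ℚ ℂ) (algZ N w)) ∧
    (3 ≤ N → ∀ s : ℕ, s = N.totient / 2 + N.primeFactors.card →
      s + (w - 1) * (s ^ 2 / 4) ≤ finrank (algebraicClosure ℚ ℂ) (algZ N w) ∧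
      (2 ≤ w → 2 * (s - 1) + (2 * w - 3) * ((s - 1) ^ 2 / 4) ≤ finrank ℚ (Z N w))) := by
  have h1 : trunc = Pool.Agent.U823.MV.tr := by
    funext l
    induction l with
    | nil => rfl
    | cons x l ih =>
      funext m
      rw [trunc, Pool.Agent.U823.MV.tr_cons, ih]
  have h2 : Z N w = Pool.Agent.U823.MV.ZZ N w := by
    rw [Z, h1]
    rfl
  have h3 : algZ N w = Pool.Agent.U823.MV.ks (Pool.Agent.U823.MV.ZZ N w) := by
    rw [algZ, h2]
    rfl
  rw [h2, h3, h1]
  have hfin := Pool.Agent.U823.MV.ZZ_fin N w hN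
  refine ⟨fun l hl => Pool.Agent.U823.MV.Idx.conv hN hl, hfin,
    Pool.Agent.U823.MV.finrank_ks_le _ hfin, ?_, ?_⟩
  · rintro rfl
    exact Pool.Agent.U823.MV.bound_level_two w hw
  · rintro hN3 s rfl
    have : NeZero N := ⟨by omega⟩
    have h4 := Pool.Agent.U823.MV.finrank_RR_one hN3
    have h5 := Pool.Agent.U823.MV.pi_mem' hN3
    have hω : 1 ≤ N.primeFactors.card := by
      rw [Nat.one_le_iff_ne_zero, Finset.card_ne_zero, Nat.nonempty_primeFactors]
      omega
    have hφ : 1 ≤ N.totient / 2 := by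
      have h6 := Nat.totient_even (by omega : 2 < N)
      have h7 := Nat.totient_pos.mpr (by omega : 0 < N)
      obtain ⟨k, hk⟩ := h6
      omega
    refine ⟨Pool.Agent.U823.MV.bound_one N hN _ (by omega) (by omega) w hw, fun hw2 => ?_⟩
    exact Pool.Agent.U823.MV.bound_two N hN3 _ (by omega) (by omega) w hw2

end Pool.Agent.Results.MP_528be1_nt.LinearGrowth
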